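import Mathlib
import Pool.Agent.Helper72.LSr.S8

/-!
The structure conjecture of Lovász and Simonovits, for all `r`, all `n` and all `m`.
-/

namespace Pool.Agent.Results.MP_5f3c9b_co.AllCliques

open Pool.Agent.Helper72.LSr

/-- For all `n ≥ 1` and `0 ≤ m ≤ C(n,2)` there is a graph with `n` vertices and `m` edges of
partite-plus-triangle-free form that has, for every `r ≥ 3`, the least number of copies of `K_r`
among all graphs with `n` vertices and `m` edges. -/
theorem result (n m : ℕ) (hn : 1 ≤ n) (hm : m ≤ n.choose 2) :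
    ∃ G : SimpleGraph (Fin n), G.edgeSet.ncard = m ∧ PartiteForm G ∧
      ∀ r, 3 ≤ r → ∀ G' : SimpleGraph (Fin n), G'.edgeSet.ncard = m → numK r G ≤ numK r G' :=
  main n m hn hm

end Pool.Agent.Results.MP_5f3c9b_co.AllCliques
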